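import Pool.Agent.Lib.MP_651af7_nt.Moving.Frame

/-! The main lemma: one frame at each place. -/

namespace Pool.Agent.Lib.MP_651af7_nt.Moving

open Finset Matrix MvPolynomial Filter Pool.Agent.Lib.Common.Subspace

variable {σ ι : Type} [Fintype σ] [DecidableEq σ] [Fintype ι] [DecidableEq ι]

theorem key_local (v : AbsoluteValue ℚ ℝ) {a : ι → ℕ} {b D : ℕ} (hD : ∀ i, a i ≤ D) (hb : D ≤ b)
    (s : σ) {G : Matrix ι ι (MvPolynomial σ ℤ)} (hG : ∀ r i, (G r i).IsHomogeneous (D - a i))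
    (u : σ → ℤ) (x : ι → ℤ) {R Ξ : ℝ} (hR : v (u s) = R) (hR0 : 0 < R) (hΞ0 : 0 < Ξ)
    (hx : ∀ i, v (x i) ≤ R ^ a i * Ξ) :
    ∏ I, v (((fmat a b D s G *ᵥ mvec a b u x) I : ℤ) : ℚ) ≤
      (∏ I : Idx σ a b, ∏ t, v (u t) ^ I.2.1 t) * (∏ r, (R ^ a r * Ξ) ^ #(mon σ (b - a r))) *
        (∏ r, v ((∑ i, eval u (G r i) * x i : ℤ) : ℚ) / (R ^ D * Ξ)) ^ #(mon σ (b - D)) := by
  have h1 : ∀ I : Idx σ a b, v (((fmat a b D s G *ᵥ mvec a b u x) I : ℤ) : ℚ) ≤
      (∏ t, v (u t) ^ I.2.1 t) * (R ^ a I.1 * Ξ) * (if D ≤ I.2.1 s + a I.1 then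
        v ((∑ i, eval u (G I.1 i) * x i : ℤ) : ℚ) / (R ^ D * Ξ) else 1) := by
    intro I
    have hp : v ((∏ t, u t ^ I.2.1 t : ℤ) : ℚ) = ∏ t, v (u t) ^ I.2.1 t := by
      push_cast
      rw [map_prod]
      simp only [map_pow]
    split_ifs with h
    · have h2 := congrArg (fun z : ℤ => v (z : ℚ)) (fmat_mvec_good hD hb s hG u x I h)
      simp only [Int.cast_mul, map_mul, Int.cast_pow, map_pow, hR, hp] at h2
      have h3 : R ^ D = R ^ (D - a I.1) * R ^ a I.1 := by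
        rw [← pow_add, Nat.sub_add_cancel (hD _)]
      refine le_of_eq ?_
      rw [h3, eq_div_of_mul_eq (pow_pos hR0 _).ne' h2]
      field_simp
    · rw [fmat_mulVec_bad _ _ _ _ _ _ _ h, mul_one, mvec, Int.cast_mul, map_mul, hp]
      exact mul_le_mul_of_nonneg_left (hx _) (prod_nonneg fun t _ => pow_nonneg (v.nonneg _) _)
  refine (prod_le_prod (fun I _ => v.nonneg _) fun I _ => h1 I).trans (le_of_eq ?_)
  rw [prod_mul_distrib, prod_mul_distrib]
  congr 1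
  · congr 1
    rw [Fintype.prod_sigma]
    refine prod_congr rfl fun r _ => ?_
    simp
  · rw [Fintype.prod_sigma, ← prod_pow]
    refine prod_congr rfl fun r _ => ?_
    dsimp only
    rw [prod_coe_sort (mon σ (b - a r)) (fun μ => if D ≤ μ s + a r then
      v ((∑ i, eval u (G r i) * x i : ℤ) : ℚ) / (R ^ D * Ξ) else 1), ← prod_filter, prod_const,
      card_good (hD r) hb]

theorem key_est {Pl : Type} [Fintype Pl] (v : Pl → AbsoluteValue ℚ ℝ) {a : ι → ℕ} {b D : ℕ}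
    (hD : ∀ i, a i ≤ D) (hb : D ≤ b) (s : Pl → σ) {G : Pl → Matrix ι ι (MvPolynomial σ ℤ)}
    (hG : ∀ o r i, (G o r i).IsHomogeneous (D - a i))
    (u : σ → ℤ) (x : ι → ℤ) {R Ξ : Pl → ℝ} (hR : ∀ o, v o (u (s o)) = R o) (hR0 : ∀ o, 0 < R o)
    (hΞ0 : ∀ o, 0 < Ξ o) (hx : ∀ o i, v o (x i) ≤ R o ^ a i * Ξ o)
    (hu : ∀ t, 1 ≤ ∏ o, v o (u t)) :
    ∏ o, ∏ I, v o (((fmat a b D (s o) (G o) *ᵥ mvec a b u x) I : ℤ) : ℚ) ≤
      (∏ t, ∏ o, v o (u t)) ^ (b * Fintype.card (Idx σ a b)) *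
        (∏ r, ((∏ o, R o) ^ a r * ∏ o, Ξ o) ^ #(mon σ (b - a r))) *
        (∏ o, ∏ r, v o ((∑ i, eval u (G o r i) * x i : ℤ) : ℚ) / (R o ^ D * Ξ o)) ^
          #(mon σ (b - D)) := by
  refine (prod_le_prod (fun o _ => prod_nonneg fun I _ => (v o).nonneg _) fun o _ =>
    key_local (v o) hD hb (s o) (hG o) u x (hR o) (hR0 o) (hΞ0 o) (hx o)).trans ?_
  rw [prod_mul_distrib, prod_mul_distrib, prod_pow]
  refine mul_le_mul_of_nonneg_right ?_ (pow_nonneg (prod_nonneg fun o _ => prod_nonneg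
    fun r _ => div_nonneg ((v o).nonneg _) (mul_pos (pow_pos (hR0 o) _) (hΞ0 o)).le) _)
  have h1 : ∏ o, ∏ r, (R o ^ a r * Ξ o) ^ #(mon σ (b - a r)) =
      ∏ r, ((∏ o, R o) ^ a r * ∏ o, Ξ o) ^ #(mon σ (b - a r)) := by
    rw [Finset.prod_comm]
    refine prod_congr rfl fun r _ => ?_
    rw [prod_pow, prod_mul_distrib, prod_pow]
  rw [h1]
  refine mul_le_mul_of_nonneg_right ?_ (prod_nonneg fun r _ => pow_nonneg (mul_nonneg
    (pow_nonneg (prod_nonneg fun o _ => (hR0 o).le) _) (prod_nonneg fun o _ => (hΞ0 o).le)) _)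
  rw [Finset.prod_comm, pow_mul, ← card_univ, ← prod_const]
  refine prod_le_prod (fun I _ => prod_nonneg fun o _ => prod_nonneg fun t _ =>
    pow_nonneg ((v o).nonneg _) _) fun I _ => ?_
  rw [Finset.prod_comm, ← prod_pow]
  refine prod_le_prod (fun t _ => prod_nonneg fun o _ => pow_nonneg ((v o).nonneg _) _)
    fun t _ => ?_
  rw [prod_pow]
  refine pow_le_pow_right₀ (hu t) ?_
  have h2 := Finsupp.le_degree t I.2.1
  rw [mem_mon.1 I.2.2] at h2
  omega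

theorem subspace_place {κ : Type} [Fintype κ] [DecidableEq κ] (LL : Finset (Matrix κ κ ℤ))
    (hLL : ∀ M ∈ LL, M.det ≠ 0) :
    ∃ W : Finset (κ → ℤ), (∀ w ∈ W, w ≠ 0) ∧
    ∀ (S : Finset ℕ) (hS : ∀ p ∈ S, p.Prime) (L : Option S → Matrix κ κ ℤ)
    (_ : ∀ o, L o ∈ LL) {τ : Type} (U : Ultrafilter τ) (q : τ → ℝ)
    (_ : Tendsto q U atTop) (x : τ → κ → ℤ) (K δ : ℝ) (_ : 0 < δ)
    (_ : ∀ᶠ t in U, ∀ i, |(x t i : ℝ)| ≤ Real.exp (K * q t))
    (_ : ∀ᶠ t in U, ∏ o, ∏ i, place S hS o (((L o *ᵥ x t) i : ℤ) : ℚ) ≤ Real.exp (-δ * q t)),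
    ∃ w ∈ W, ∀ᶠ t in U, w ⬝ᵥ x t = 0 := by
  obtain ⟨W, hW0, hW⟩ := subspace_unif LL hLL
  refine ⟨W, hW0, fun S hS L hL τ U q hq x K δ hδ hx hprod => ?_⟩
  refine hW S hS (L none) (hL _) (fun p => if h : p ∈ S then L (some ⟨p, h⟩) else L none)
    (fun p hp => by rw [dif_pos hp]; exact hL _) U q hq x K δ hδ hx (hprod.mono fun t ht => ?_)
  rw [Fintype.prod_option] at ht
  refine le_trans (le_of_eq ?_) ht
  simp only [place_none]
  congr 1
  rw [← prod_coe_sort S]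
  exact prod_congr rfl fun p _ => prod_congr rfl fun i _ => by rw [dif_pos p.2, place_some]

/-- The fibre norm `max |x i| / ‖u‖ ^ a i`. -/
noncomputable def xi (a : ι → ℕ) (u : σ → ℤ) (x : ι → ℤ) : ℝ :=
  ‖fun i => (x i : ℝ) / ‖u‖ ^ a i‖

theorem abs_le_norm {κ : Type} [Fintype κ] (u : κ → ℤ) (t : κ) : |(u t : ℝ)| ≤ ‖u‖ :=
  norm_le_pi_norm u t

theorem one_le_norm {κ : Type} [Fintype κ] [Nonempty κ] {u : κ → ℤ} (hu : ∀ t, u t ≠ 0) :
    1 ≤ ‖u‖ := by
  obtain ⟨t⟩ := ‹Nonempty κ›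
  refine le_trans ?_ (abs_le_norm u t)
  exact_mod_cast Int.one_le_abs (hu t)

omit [DecidableEq σ] [DecidableEq ι] in
theorem le_xi (a : ι → ℕ) {u : σ → ℤ} (hu : 0 < ‖u‖) (x : ι → ℤ) (i : ι) :
    |(x i : ℝ)| ≤ ‖u‖ ^ a i * xi a u x := by
  have h := norm_le_pi_norm (fun i => (x i : ℝ) / ‖u‖ ^ a i) i
  rw [Real.norm_eq_abs, abs_div, abs_of_pos (pow_pos hu _), div_le_iff₀' (pow_pos hu _)] at h
  exact h

omit [DecidableEq σ] [DecidableEq ι] in
theorem xi_le (a : ι → ℕ) {u : σ → ℤ} (hu : 1 ≤ ‖u‖) (x : ι → ℤ) : xi a u x ≤ ‖x‖ := by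
  refine (pi_norm_le_iff_of_nonneg (norm_nonneg _)).2 fun i => ?_
  rw [Real.norm_eq_abs, abs_div, abs_of_pos (pow_pos (one_pos.trans_le hu) _)]
  exact (div_le_self (abs_nonneg _) (one_le_pow₀ hu)).trans (abs_le_norm x i)

omit [DecidableEq σ] [DecidableEq ι] in
theorem one_le_xi (a : ι → ℕ) {u : σ → ℤ} (hu : 0 < ‖u‖) {x : ι → ℤ} {i : ι} (hx : x i ≠ 0) :
    1 ≤ ‖u‖ ^ a i * xi a u x := by
  refine le_trans ?_ (le_xi a hu x i)
  exact_mod_cast Int.one_le_abs hx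

omit [DecidableEq σ] [DecidableEq ι] in
theorem xi_pos [Nonempty ι] (a : ι → ℕ) {u : σ → ℤ} (hu : 0 < ‖u‖) {x : ι → ℤ}
    (hx : ∀ i, x i ≠ 0) : 0 < xi a u x := by
  obtain ⟨i⟩ := ‹Nonempty ι›
  exact pos_of_mul_pos_right (one_pos.trans_le (one_le_xi a hu (hx i))) (pow_pos hu _).le

theorem place_int_le (S : Finset ℕ) (hS : ∀ p ∈ S, p.Prime) (p : S) (z : ℤ) :
    place S hS (some p) z ≤ 1 := by
  have := Fact.mk (hS p.1 p.2)
  rw [place_some]
  exact_mod_cast padicNorm.of_int z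

theorem prod_elim (S : Finset ℕ) (r : ℝ) : ∏ o : Option S, o.elim r (fun _ => 1) = r := by
  rw [Fintype.prod_option]
  simp

theorem ml [Nonempty σ] [Nonempty ι] {Φ : Type} [Fintype Φ] (a : ι → ℕ) (D : ℕ)
    (hD : ∀ i, a i ≤ D) (s : Φ → σ) (G : Φ → Matrix ι ι (MvPolynomial σ ℤ))
    (hG : ∀ φ r i, (G φ r i).IsHomogeneous (D - a i))
    (hdet : ∀ φ, ((G φ).map (eval (Pi.single (s φ) 1))).det ≠ 0) {ε : ℝ} (hε : 0 < ε) :
    ∃ (c b : ℕ) (W : Finset (Idx σ a b → ℤ)), D ≤ b ∧ (∀ w ∈ W, w ≠ 0) ∧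
    ∀ (S : Finset ℕ) (hS : ∀ p ∈ S, p.Prime), ∃ C : ℝ, ∀ (u : σ → ℤ) (x : ι → ℤ),
      (∀ t, u t ≠ 0) → (∀ i, x i ≠ 0) → (∀ w ∈ W, w ⬝ᵥ mvec a b u x ≠ 0) →
      ∀ φ : Option S → Φ, (∀ o, place S hS o (u (s (φ o))) = o.elim ‖u‖ fun _ => 1) →
      1 ≤ Real.exp (C + ε * (Real.log ‖u‖ + Real.log ‖x‖)) *
        (∏ t, ∏ o, place S hS o (u t)) ^ c *
        ((∏ o, ∏ r, place S hS o ((∑ i, eval u (G (φ o) r i) * x i : ℤ) : ℚ) /
          ((o.elim ‖u‖ fun _ => 1) ^ D * o.elim (xi a u x) fun _ => 1)) *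
          ∏ r, ‖u‖ ^ a r * xi a u x) := by
  classical
  set κ : ℝ := ∑ r, (1 + (a r : ℝ)) with hκ
  have hκ0 : 0 < κ := sum_pos (fun r _ => by positivity) univ_nonempty
  obtain ⟨b, hb, hrat⟩ := exists_ratio (σ := σ) D (show 0 < ε / (2 * κ) by positivity)
  obtain ⟨W, hW0, hW⟩ := subspace_place (univ.image fun φ => fmat a b D (s φ) (G φ)) (by
    intro M hM
    obtain ⟨φ, -, rfl⟩ := mem_image.1 hM
    exact fmat_det hD hb _ (hG φ) (hdet φ))
  refine ⟨b * Fintype.card (Idx σ a b), b, W, hb, hW0, fun S hS => ?_⟩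
  by_contra hcon
  push Not at hcon
  choose u x hu hx hw φ hφ hlt using fun t : ℕ => hcon t
  let U : Ultrafilter ℕ := Ultrafilter.of atTop
  have hU : (U : Filter ℕ) ≤ atTop := Ultrafilter.of_le atTop
  obtain ⟨φ₀, hφ₀⟩ := ultra_const U φ
  have hu1 : ∀ t, 1 ≤ ‖u t‖ := fun t => one_le_norm (hu t)
  have hx1 : ∀ t, 1 ≤ ‖x t‖ := fun t => one_le_norm (hx t)
  have hlu : ∀ t, 0 ≤ Real.log ‖u t‖ := fun t => Real.log_nonneg (hu1 t)
  have hlx : ∀ t, 0 ≤ Real.log ‖x t‖ := fun t => Real.log_nonneg (hx1 t)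
  obtain ⟨w, hwW, hw0⟩ := hW S hS (fun o => fmat a b D (s (φ₀ o)) (G (φ₀ o)))
    (fun o => mem_image_of_mem _ (mem_univ _)) U
    (fun t => Real.log ‖u t‖ + Real.log ‖x t‖ + t)
    (tendsto_atTop_mono (fun t => by linarith [hlu t, hlx t])
      (tendsto_natCast_atTop_atTop.mono_left hU))
    (fun t => mvec a b (u t) (x t)) (b + 1) (min 1 (ε / 2)) (by positivity)
    (Eventually.of_forall fun t I => by
      have h1 : |((mvec a b (u t) (x t) I : ℤ) : ℝ)| ≤ ‖u t‖ ^ b * ‖x t‖ := by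
        rw [mvec]
        push_cast
        rw [abs_mul, abs_prod]
        refine mul_le_mul ?_ (abs_le_norm _ _) (abs_nonneg _) (by positivity)
        calc ∏ k, |(u t k : ℝ) ^ I.2.1 k| ≤ ∏ k, ‖u t‖ ^ I.2.1 k :=
              prod_le_prod (fun _ _ => abs_nonneg _) fun k _ => by
                rw [abs_pow]; exact pow_le_pow_left₀ (abs_nonneg _) (abs_le_norm _ _) _
          _ = ‖u t‖ ^ (b - a I.1) := by
              rw [prod_pow_eq_pow_sum, ← Finsupp.degree_eq_sum, mem_mon.1 I.2.2]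
          _ ≤ _ := pow_le_pow_right₀ (hu1 t) (Nat.sub_le _ _)
      refine h1.trans ?_
      rw [← Real.exp_log (show 0 < ‖u t‖ ^ b * ‖x t‖ from
        mul_pos (pow_pos (by linarith [hu1 t]) _) (by linarith [hx1 t])),
        Real.log_mul (pow_pos (by linarith [hu1 t]) _).ne' (by linarith [hx1 t]), Real.log_pow]
      refine Real.exp_le_exp.2 ?_
      have := hlu t
      have := hlx t
      have : (0 : ℝ) ≤ b := Nat.cast_nonneg _
      have : (0 : ℝ) ≤ t := Nat.cast_nonneg _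
      nlinarith)
    (by
      filter_upwards [hφ₀] with t ht
      have hu0 : 0 < ‖u t‖ := by linarith [hu1 t]
      have hξ0 := xi_pos a hu0 (hx t)
      have hA : ∀ k, 1 ≤ ∏ o, place S hS o (u t k) := fun k =>
        (places_place S hS).2.2 _ (hu t k)
      have h1 := key_est (place S hS) hD hb (fun o => s (φ₀ o)) (G := fun o => G (φ₀ o))
        (fun o => hG _) (u t) (x t) (R := fun o => o.elim ‖u t‖ fun _ => 1)
        (Ξ := fun o => o.elim (xi a (u t) (x t)) fun _ => 1)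
        (fun o => by rw [← hφ t o, ht]) (by rintro (_ | p); exacts [hu0, one_pos])
        (by rintro (_ | p); exacts [hξ0, one_pos]) (by
          rintro (_ | p) i
          · rw [place_none]; exact le_xi a hu0 _ _
          · simpa using place_int_le S hS p _) hA
      refine h1.trans ?_
      have h2 := hlt t
      rw [ht] at h2
      rw [prod_elim, prod_elim]
      set A := (∏ k, ∏ o, place S hS o (u t k)) ^ (b * Fintype.card (Idx σ a b)) with hAdef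
      have hA1 : 1 ≤ A := one_le_pow₀ (Finset.one_le_prod fun k _ => hA k)
      set P := ∏ o, ∏ r, place S hS o ((∑ i, eval (u t) (G (φ₀ o) r i) * x t i : ℤ) : ℚ) /
          ((o.elim ‖u t‖ fun _ => 1) ^ D * o.elim (xi a (u t) (x t)) fun _ => 1) with hP
      have hP0 : 0 ≤ P := prod_nonneg fun o _ => prod_nonneg fun r _ =>
        div_nonneg ((place S hS o).nonneg _) (by
          rcases o with _ | p
          · exact (mul_pos (pow_pos hu0 _) hξ0).le
          · simp)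
      set H := Real.log ‖u t‖ + Real.log ‖x t‖ with hH
      have hH0 : 0 ≤ H := add_nonneg (hlu t) (hlx t)
      set B := #(mon σ (b - D)) with hB
      have hB1 : 1 ≤ B := card_mon_pos _
      have hQ1 : ∀ r, 1 ≤ ‖u t‖ ^ a r * xi a (u t) (x t) := fun r => one_le_xi a hu0 (hx t r)
      have h3 : ∀ r, (‖u t‖ ^ a r * xi a (u t) (x t)) ^ #(mon σ (b - a r)) ≤
          (‖u t‖ ^ a r * xi a (u t) (x t)) ^ B *
            Real.exp (ε / (2 * κ) * B * ((1 + a r) * H)) := fun r => by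
        have h4 : Real.log (‖u t‖ ^ a r * xi a (u t) (x t)) ≤ (1 + a r) * H := by
          rw [Real.log_mul (pow_pos hu0 _).ne' hξ0.ne', Real.log_pow]
          have h5 := Real.log_le_log hξ0 (xi_le a (hu1 t) (x t))
          have := hlu t
          have := hlx t
          have : (0 : ℝ) ≤ a r := Nat.cast_nonneg _
          nlinarith
        have h6 := Real.log_nonneg (hQ1 r)
        have h7 : 0 < ‖u t‖ ^ a r * xi a (u t) (x t) := by linarith [hQ1 r]
        rw [← Real.exp_log (pow_pos h7 _), ← Real.exp_log (pow_pos h7 B), ← Real.exp_add,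
          Real.log_pow, Real.log_pow]
        refine Real.exp_le_exp.2 ?_
        have h8 := mul_le_mul_of_nonneg_right (hrat (a r) (hD r)) h6
        have h9 : ε / (2 * κ) * B * Real.log (‖u t‖ ^ a r * xi a (u t) (x t)) ≤
            ε / (2 * κ) * B * ((1 + a r) * H) := mul_le_mul_of_nonneg_left h4 (by positivity)
        linarith
      set Q := ∏ r, ‖u t‖ ^ a r * xi a (u t) (x t) with hQ
      have hQ0 : 0 ≤ Q := prod_nonneg fun r _ => by linarith [hQ1 r]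
      have h4 : ∏ r, (‖u t‖ ^ a r * xi a (u t) (x t)) ^ #(mon σ (b - a r)) ≤
          Q ^ B * Real.exp (ε / 2 * H) ^ B := by
        refine (prod_le_prod (fun r _ => pow_nonneg (by linarith [hQ1 r]) _)
          fun r _ => h3 r).trans (le_of_eq ?_)
        rw [prod_mul_distrib, prod_pow, ← Real.exp_sum, ← mul_sum, ← sum_mul, ← hκ,
          ← Real.exp_nat_mul]
        congr 2
        field_simp
      have h5 : A * (P * Q * Real.exp (ε / 2 * H)) ≤ Real.exp (-(t + ε / 2 * H)) := by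
        have h6 : Real.exp (t + ε * H) = Real.exp (t + ε / 2 * H) * Real.exp (ε / 2 * H) := by
          rw [← Real.exp_add]; congr 1; ring
        rw [Real.exp_neg, ← one_div, le_div_iff₀ (Real.exp_pos _)]
        rw [h6] at h2
        linarith
      have h7 : Real.exp (-(t + ε / 2 * H)) ≤ 1 :=
        Real.exp_le_one_iff.2 (by have : (0 : ℝ) ≤ t := Nat.cast_nonneg _; nlinarith)
      have hY0 : 0 ≤ P * Q * Real.exp (ε / 2 * H) := by positivity
      have h8 : P * Q * Real.exp (ε / 2 * H) ≤ 1 :=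
        (le_mul_of_one_le_left hY0 hA1).trans (h5.trans h7)
      calc A * (∏ r, (‖u t‖ ^ a r * xi a (u t) (x t)) ^ #(mon σ (b - a r))) * P ^ B
          ≤ A * (Q ^ B * Real.exp (ε / 2 * H) ^ B) * P ^ B := by gcongr
        _ = A * (P * Q * Real.exp (ε / 2 * H)) ^ B := by rw [mul_pow, mul_pow]; ring
        _ ≤ A * (P * Q * Real.exp (ε / 2 * H)) :=
            mul_le_mul_of_nonneg_left (pow_le_of_le_one hY0 h8 (by omega)) (by linarith)
        _ ≤ _ := h5.trans (Real.exp_le_exp.2 ?_)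
      have h9 := min_le_left 1 (ε / 2)
      have h10 := min_le_right 1 (ε / 2)
      have : (0 : ℝ) ≤ t := Nat.cast_nonneg _
      nlinarith)
  obtain ⟨t, ht⟩ := hw0.exists
  exact hw t w hwW ht

end Pool.Agent.Lib.MP_651af7_nt.Moving
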