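import Pool.Agent.Lib.Common.Subspace.Uniform

/-! Linear algebra of the auxiliary linear forms `u ^ ν * ℓ r`. -/

namespace Pool.Agent.Lib.MP_651af7_nt.Moving

open Finset Matrix MvPolynomial

variable {σ ι : Type} [Fintype σ] [DecidableEq σ] [Fintype ι] [DecidableEq ι]

/-- Exponent vectors of degree `n`. -/
noncomputable abbrev mon (σ : Type) [Fintype σ] [DecidableEq σ] (n : ℕ) : Finset (σ →₀ ℕ) :=
  finsuppAntidiag univ n

theorem mem_mon {n : ℕ} {μ : σ →₀ ℕ} : μ ∈ mon σ n ↔ μ.degree = n := by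
  rw [mem_finsuppAntidiag, Finsupp.degree_eq_sum]
  simp

theorem mem_mon_of_coeff {P : MvPolynomial σ ℤ} {n : ℕ} (hP : P.IsHomogeneous n) {κ : σ →₀ ℕ}
    (h : coeff κ P ≠ 0) : κ ∈ mon σ n := by
  by_contra h1
  exact h (hP.coeff_eq_zero fun h2 => h1 (mem_mon.2 h2))

theorem sum_coeff_eval {P : MvPolynomial σ ℤ} {n : ℕ} (hP : P.IsHomogeneous n) (u : σ → ℤ) :
    ∑ κ ∈ mon σ n, coeff κ P * ∏ t, u t ^ κ t = eval u P := by
  rw [eval_eq']
  refine (sum_subset (fun κ hκ => mem_mon_of_coeff hP (mem_support_iff.1 hκ)) ?_).symm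
  intro κ _ hκ
  rw [notMem_support_iff.1 hκ, zero_mul]

theorem eq_single_of_degree {μ : σ →₀ ℕ} {n : ℕ} (h : μ.degree = n) {s : σ} (hs : n ≤ μ s) :
    μ = Finsupp.single s n := by
  rw [Finsupp.degree_eq_sum, ← add_sum_erase _ _ (mem_univ s)] at h
  have h1 : ∑ t ∈ univ.erase s, μ t = 0 := by omega
  ext t
  by_cases ht : t = s
  · subst ht; simp; omega
  · rw [Finsupp.single_eq_of_ne ht]
    exact sum_eq_zero_iff.1 h1 t (mem_erase.2 ⟨ht, mem_univ _⟩)

theorem eval_single {P : MvPolynomial σ ℤ} {n : ℕ} (hP : P.IsHomogeneous n) (s : σ) :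
    eval (Pi.single s 1) P = coeff (Finsupp.single s n) P := by
  rw [← sum_coeff_eval hP, sum_eq_single (Finsupp.single s n)]
  · rw [prod_eq_one, mul_one]
    intro t _
    by_cases ht : t = s
    · subst ht; simp
    · rw [Finsupp.single_eq_of_ne ht, pow_zero]
  · intro κ hκ hne
    have h1 : ∃ t, t ≠ s ∧ κ t ≠ 0 := by
      by_contra hcon
      push Not at hcon
      refine hne (eq_single_of_degree (mem_mon.1 hκ) ?_)
      have h2 := mem_mon.1 hκ
      rw [Finsupp.degree_eq_sum, sum_eq_single s (fun t _ ht => hcon t ht) (by simp)] at h2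
      omega
    obtain ⟨t, ht, h0⟩ := h1
    rw [prod_eq_zero (mem_univ t), mul_zero]
    rw [Pi.single_eq_of_ne ht, zero_pow h0]
  · intro h
    exact absurd (mem_mon.2 (by simp)) h

/-- Index set of the monomials `u ^ μ * x i` of degree `(b, 1)`. -/
abbrev Idx (σ : Type) [Fintype σ] [DecidableEq σ] (a : ι → ℕ) (b : ℕ) : Type :=
  Σ i : ι, mon σ (b - a i)

/-- The monomial vector. -/
def mvec (a : ι → ℕ) (b : ℕ) (u : σ → ℤ) (x : ι → ℤ) : Idx σ a b → ℤ :=
  fun I => (∏ t, u t ^ I.2.1 t) * x I.1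

/-- The matrix of the auxiliary linear forms of a frame. -/
noncomputable def fmat (a : ι → ℕ) (b D : ℕ) (s : σ) (G : Matrix ι ι (MvPolynomial σ ℤ)) :
    Matrix (Idx σ a b) (Idx σ a b) ℤ :=
  Matrix.of fun I K => if D ≤ I.2.1 s + a I.1 then
    coeff K.2.1 (monomial (I.2.1 - Finsupp.single s (D - a I.1)) 1 * G I.1 K.1)
  else if I = K then 1 else 0

theorem fmat_mulVec_good (a : ι → ℕ) (b D : ℕ) (s : σ) (G : Matrix ι ι (MvPolynomial σ ℤ))
    (y : Idx σ a b → ℤ) (I : Idx σ a b) (h : D ≤ I.2.1 s + a I.1) :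
    (fmat a b D s G *ᵥ y) I = ∑ i, ∑ κ : mon σ (b - a i),
      coeff κ.1 (monomial (I.2.1 - Finsupp.single s (D - a I.1)) 1 * G I.1 i) * y ⟨i, κ⟩ := by
  simp only [mulVec, dotProduct, fmat, of_apply, if_pos h]
  rw [Fintype.sum_sigma]

theorem fmat_mulVec_bad (a : ι → ℕ) (b D : ℕ) (s : σ) (G : Matrix ι ι (MvPolynomial σ ℤ))
    (y : Idx σ a b → ℤ) (I : Idx σ a b) (h : ¬ D ≤ I.2.1 s + a I.1) :
    (fmat a b D s G *ᵥ y) I = y I := by
  simp only [mulVec, dotProduct, fmat, of_apply, if_neg h]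
  simp

omit [Fintype σ] [DecidableEq σ] in
theorem degree_sub_single {μ : σ →₀ ℕ} {s : σ} {k : ℕ} (h : k ≤ μ s) :
    (μ - Finsupp.single s k).degree + k = μ.degree := by
  have h1 : μ - Finsupp.single s k + Finsupp.single s k = μ :=
    tsub_add_cancel_of_le (Finsupp.single_le_iff.2 h)
  conv_rhs => rw [← h1]
  rw [map_add, Finsupp.degree_single]

theorem fmat_mvec_good {a : ι → ℕ} {b D : ℕ} (hD : ∀ i, a i ≤ D) (hb : D ≤ b) (s : σ)
    {G : Matrix ι ι (MvPolynomial σ ℤ)} (hG : ∀ r i, (G r i).IsHomogeneous (D - a i))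
    (u : σ → ℤ) (x : ι → ℤ) (I : Idx σ a b) (h : D ≤ I.2.1 s + a I.1) :
    (fmat a b D s G *ᵥ mvec a b u x) I * u s ^ (D - a I.1) =
      (∏ t, u t ^ I.2.1 t) * ∑ i, eval u (G I.1 i) * x i := by
  have hk : D - a I.1 ≤ I.2.1 s := by omega
  have hdeg := degree_sub_single hk
  rw [mem_mon.1 I.2.2] at hdeg
  have h1 : ∀ i, ∑ κ : mon σ (b - a i),
      coeff κ.1 (monomial (I.2.1 - Finsupp.single s (D - a I.1)) 1 * G I.1 i) *
        mvec a b u x ⟨i, κ⟩ =
      (∏ t, u t ^ (I.2.1 - Finsupp.single s (D - a I.1) : σ →₀ ℕ) t) *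
        (eval u (G I.1 i) * x i) := fun i => by
    have hh : (monomial (I.2.1 - Finsupp.single s (D - a I.1)) (1 : ℤ) *
        G I.1 i).IsHomogeneous (b - a i) := by
      have := (isHomogeneous_monomial (1 : ℤ) (rfl : (I.2.1 - Finsupp.single s
        (D - a I.1)).degree = _)).mul (hG I.1 i)
      convert this using 1
      have := hD i
      have := hD I.1
      omega
    have h2 := sum_coeff_eval hh u
    rw [map_mul, eval_monomial, one_mul, Finsupp.prod_fintype _ _ (by simp)] at h2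
    simp only [mvec, ← mul_assoc, ← sum_mul]
    rw [← h2, sum_coe_sort (mon σ (b - a i)) (fun κ => coeff κ (monomial (I.2.1 - Finsupp.single s
      (D - a I.1)) 1 * G I.1 i) * ∏ t, u t ^ κ t)]
  rw [fmat_mulVec_good _ _ _ _ _ _ _ h, sum_congr rfl fun i _ => h1 i, ← mul_sum, mul_right_comm]
  congr 1
  have h3 : u s ^ (D - a I.1) = ∏ t, u t ^ (Finsupp.single s (D - a I.1)) t := by
    rw [prod_eq_single s (fun t _ ht => by rw [Finsupp.single_eq_of_ne ht, pow_zero]) (by simp)]
    simp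
  rw [h3, ← prod_mul_distrib]
  refine prod_congr rfl fun t _ => ?_
  rw [← pow_add, ← Finsupp.add_apply, tsub_add_cancel_of_le (Finsupp.single_le_iff.2 hk)]

theorem fmat_det {a : ι → ℕ} {b D : ℕ} (hD : ∀ i, a i ≤ D) (hb : D ≤ b) (s : σ)
    {G : Matrix ι ι (MvPolynomial σ ℤ)} (hG : ∀ r i, (G r i).IsHomogeneous (D - a i))
    (hdet : (G.map (eval (Pi.single s 1))).det ≠ 0) : (fmat a b D s G).det ≠ 0 := by
  intro h0
  obtain ⟨y, hy0, hy⟩ := Matrix.exists_mulVec_eq_zero_iff.2 h0
  apply hy0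
  have key : ∀ m, ∀ I : Idx σ a b, I.2.1 s + a I.1 = m → y I = 0 := by
    intro m
    induction m using Nat.strong_induction_on with
    | _ m ih =>
    intro I hI
    by_cases hm : D ≤ m
    · set ν : σ →₀ ℕ := I.2.1 - Finsupp.single s (D - a I.1) with hν
      have hk : D - a I.1 ≤ I.2.1 s := by omega
      have hdeg := degree_sub_single hk
      rw [mem_mon.1 I.2.2, ← hν] at hdeg
      have hνs : ν s + D = m := by
        rw [hν, Finsupp.tsub_apply, Finsupp.single_eq_same]
        have := hD I.1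
        omega
      have hmem : ∀ r, ν + Finsupp.single s (D - a r) ∈ mon σ (b - a r) := fun r => by
        rw [mem_mon, map_add, Finsupp.degree_single]
        have := hD r
        have := hD I.1
        omega
      let z : ι → ℤ := fun r => y ⟨r, ⟨_, hmem r⟩⟩
      have hz : G.map (eval (Pi.single s 1)) *ᵥ z = 0 := by
        funext r
        have h1 := congrFun hy ⟨r, ⟨_, hmem r⟩⟩
        rw [fmat_mulVec_good _ _ _ _ _ _ _ (by
          have := hD r
          simp only [Finsupp.add_apply, Finsupp.single_eq_same]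
          omega)] at h1
        simp only [add_tsub_cancel_right, Pi.zero_apply] at h1
        rw [Pi.zero_apply, ← h1, mulVec, dotProduct]
        refine sum_congr rfl fun i _ => ?_
        rw [Fintype.sum_eq_single ⟨_, hmem i⟩]
        · rw [coeff_monomial_mul, one_mul, map_apply, eval_single (hG r i)]
        · intro κ hκ
          by_contra hne
          obtain ⟨h2, h3⟩ := mul_ne_zero_iff.1 hne
          rw [coeff_monomial_mul'] at h2
          split_ifs at h2 with h4
          · rw [one_mul] at h2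
            have h5 := mem_mon.1 (mem_mon_of_coeff (hG r i) h2)
            have h6 : κ.1 = ν + (κ.1 - ν) := (add_tsub_cancel_of_le h4).symm
            have h7 : ¬ D - a i ≤ (κ.1 - ν : σ →₀ ℕ) s := fun h7 =>
              hκ (Subtype.ext (by rw [h6, eq_single_of_degree h5 h7]))
            refine h3 (ih _ ?_ ⟨i, κ⟩ rfl)
            have h8 : κ.1 s = ν s + (κ.1 - ν : σ →₀ ℕ) s := by
              conv_lhs => rw [h6]
              rfl
            have := hD i
            simp only
            omega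
          · exact h2 rfl
      have h9 := congrFun (Matrix.eq_zero_of_mulVec_eq_zero hdet hz) I.1
      simp only [z, Pi.zero_apply] at h9
      rw [← h9]
      congr 1
      obtain ⟨i, μ, hμ⟩ := I
      simp only [Sigma.mk.injEq, heq_eq_eq, Subtype.mk.injEq, true_and]
      exact (tsub_add_cancel_of_le (Finsupp.single_le_iff.2 hk)).symm
    · have h1 := congrFun hy I
      rwa [fmat_mulVec_bad _ _ _ _ _ _ _ (by omega)] at h1
  exact funext fun I => key _ I rfl

theorem card_good {k b D : ℕ} (hk : k ≤ D) (hb : D ≤ b) (s : σ) :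
    #{μ ∈ mon σ (b - k) | D ≤ μ s + k} = #(mon σ (b - D)) := by
  refine card_nbij' (fun μ => μ - Finsupp.single s (D - k)) (fun ν => ν + Finsupp.single s (D - k))
    ?_ ?_ ?_ ?_
  · intro μ hμ
    obtain ⟨h1, h2⟩ := mem_filter.1 (mem_coe.1 hμ)
    have := degree_sub_single (μ := μ) (s := s) (k := D - k) (by omega)
    rw [mem_mon.1 h1] at this
    exact mem_coe.2 (mem_mon.2 (by dsimp only; omega))
  · intro ν hν
    have h1 := mem_mon.1 (mem_coe.1 hν)
    refine mem_coe.2 (mem_filter.2 ⟨mem_mon.2 ?_, ?_⟩)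
    · simp only [map_add, Finsupp.degree_single]
      omega
    · simp only [Finsupp.add_apply, Finsupp.single_eq_same]
      omega
  · intro μ hμ
    obtain ⟨h1, h2⟩ := mem_filter.1 (mem_coe.1 hμ)
    exact tsub_add_cancel_of_le (Finsupp.single_le_iff.2 (by omega))
  · intro ν _
    simp

theorem card_mon_succ [Nonempty σ] (m : ℕ) :
    #(mon σ (m + 1)) * (m + 1) = #(mon σ m) * (Fintype.card σ + m) := by
  rw [card_finsuppAntidiag_nat_eq_choose, card_finsuppAntidiag_nat_eq_choose, card_univ]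
  obtain ⟨k, hk⟩ : ∃ k, Fintype.card σ = k + 1 :=
    ⟨Fintype.card σ - 1, by have := Fintype.card_pos (α := σ); omega⟩
  rw [hk, show k + 1 + (m + 1) - 1 = k + m + 1 by omega, show k + 1 + m - 1 = k + m by omega,
    show k + 1 + m = k + m + 1 by omega, ← Nat.add_one_mul_choose_eq, mul_comm]

theorem card_mon_pos [Nonempty σ] (m : ℕ) : 0 < #(mon σ m) :=
  card_pos.2 ⟨Finsupp.single (Classical.arbitrary σ) m, mem_mon.2 (by simp)⟩

theorem exists_ratio [Nonempty σ] (D : ℕ) {η : ℝ} (hη : 0 < η) :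
    ∃ b, D ≤ b ∧ ∀ k ≤ D, (#(mon σ (b - k)) : ℝ) ≤ (1 + η) * #(mon σ (b - D)) := by
  have h1 : Filter.Tendsto (fun m : ℕ => (1 + (Fintype.card σ : ℝ) / (m + 1)) ^ D) Filter.atTop
      (nhds ((1 + 0) ^ D)) := by
    refine (Filter.Tendsto.const_add _ ?_).pow D
    exact Filter.Tendsto.div_atTop tendsto_const_nhds
      (Filter.tendsto_atTop_add_const_right _ _ tendsto_natCast_atTop_atTop)
  rw [add_zero, one_pow] at h1
  obtain ⟨m, hm⟩ := (h1.eventually (gt_mem_nhds (show (1 : ℝ) < 1 + η by linarith))).exists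
  set ρ : ℝ := 1 + (Fintype.card σ : ℝ) / (m + 1) with hρ
  have hρ1 : 1 ≤ ρ := le_add_of_nonneg_right (by positivity)
  have h2 : ∀ j, (#(mon σ (m + j)) : ℝ) ≤ ρ ^ j * #(mon σ m) := by
    intro j
    induction j with
    | zero => simp
    | succ j ih =>
      have h3 : (#(mon σ (m + j + 1)) : ℝ) * (m + j + 1) =
          #(mon σ (m + j)) * (Fintype.card σ + (m + j)) := by
        exact_mod_cast card_mon_succ (σ := σ) (m + j)
      have h4 : (Fintype.card σ + (m + j) : ℝ) ≤ ρ * (m + j + 1) := by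
        have h5 : (Fintype.card σ : ℝ) ≤ (Fintype.card σ : ℝ) / (m + 1) * (m + j + 1) := by
          rw [div_mul_eq_mul_div, le_div_iff₀ (by positivity)]
          exact mul_le_mul_of_nonneg_left (by linarith [Nat.cast_nonneg (α := ℝ) j])
            (Nat.cast_nonneg _)
        rw [hρ]
        linarith
      have h6 : (#(mon σ (m + j + 1)) : ℝ) ≤ #(mon σ (m + j)) * ρ := by
        refine le_of_mul_le_mul_right ?_ (show (0 : ℝ) < m + j + 1 by positivity)
        rw [h3, mul_assoc]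
        exact mul_le_mul_of_nonneg_left h4 (Nat.cast_nonneg _)
      calc (#(mon σ (m + (j + 1))) : ℝ) ≤ #(mon σ (m + j)) * ρ := h6
        _ ≤ ρ ^ j * #(mon σ m) * ρ := mul_le_mul_of_nonneg_right ih (by linarith)
        _ = _ := by ring
  refine ⟨m + D, by omega, fun k hk => ?_⟩
  rw [show m + D - k = m + (D - k) by omega, Nat.add_sub_cancel]
  refine (h2 _).trans (mul_le_mul_of_nonneg_right ?_ (Nat.cast_nonneg _))
  exact (pow_le_pow_right₀ hρ1 (Nat.sub_le _ _)).trans hm.le

end Pool.Agent.Lib.MP_651af7_nt.Moving
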