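import Pool.Agent.Lib.MP_651af7_nt.Moving.Tools

/-! Assembly: the multiplicative form of the main inequality. -/

namespace Pool.Agent.Lib.MP_651af7_nt.Moving

open Finset Matrix MvPolynomial Pool.Agent.Lib.Common.Subspace

variable {σ ι J : Type} [Fintype σ] [DecidableEq σ] [Fintype ι] [DecidableEq ι]

/-- The rows from which frames are chosen. -/
noncomputable def row (a : ι → ℕ) (d : J → ℕ) (g : J → ι → MvPolynomial σ ℤ) (D : ℕ) (s : σ) :
    J ⊕ ι → ι → MvPolynomial σ ℤ :=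
  Sum.elim (fun j i => X s ^ (D - d j) * g j i) fun i' i => if i = i' then X s ^ (D - a i) else 0

omit [Fintype σ] [DecidableEq σ] [Fintype ι] in
theorem row_hom {a : ι → ℕ} {d : J → ℕ} {g : J → ι → MvPolynomial σ ℤ}
    (hg : ∀ j i, ∀ μ ∈ (g j i).support, μ.degree + a i = d j) {D : ℕ} (hd : ∀ j, d j ≤ D)
    (s : σ) (k : J ⊕ ι) (i : ι) : (row a d g D s k i).IsHomogeneous (D - a i) := by
  rcases k with j | i'
  · simp only [row, Sum.elim_inl]
    by_cases h0 : g j i = 0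
    · rw [h0, mul_zero]; exact isHomogeneous_zero _ _ _
    · obtain ⟨μ, hμ⟩ := exists_coeff_ne_zero h0
      have h1 := hg j i μ (mem_support_iff.2 hμ)
      have h2 : (g j i).IsHomogeneous (d j - a i) := fun ν hν => by
        have := hg j i ν (mem_support_iff.2 hν)
        rw [Finsupp.degree_eq_weight_one, ← Pi.one_def] at this
        omega
      have h3 := (isHomogeneous_X_pow (R := ℤ) s (D - d j)).mul h2
      convert h3 using 1
      have := hd j
      omega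
  · simp only [row, Sum.elim_inr]
    split_ifs
    · exact isHomogeneous_X_pow _ _
    · exact isHomogeneous_zero _ _ _

omit [Fintype σ] in
theorem row_det {a : ι → ℕ} {d : J → ℕ} {g : J → ι → MvPolynomial σ ℤ} {D : ℕ} {s : σ}
    {f : ι → J ⊕ ι} (h : (Matrix.of fun r => Sum.elim
      (fun j i => ((eval (Pi.single s 1) (g j i) : ℤ) : ℚ)) (fun i => Pi.single i 1) (f r)).det ≠ 0) :
    ((Matrix.of fun r => row a d g D s (f r)).map (eval (Pi.single s 1))).det ≠ 0 := by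
  intro h0
  apply h
  have h1 := congrArg (Int.cast : ℤ → ℚ) h0
  rw [Int.cast_det, Int.cast_zero] at h1
  rw [← h1]
  congr 1
  ext r i
  simp only [of_apply, map_apply]
  rcases f r with j | i'
  · simp [row]
  · simp only [row, Sum.elim_inr, Pi.single_apply]
    split_ifs <;> simp

theorem local_lower [Fintype J] (v : AbsoluteValue ℚ ℝ) (hv : ∀ z : ℤ, v z ≤ |(z : ℝ)|)
    {a : ι → ℕ} {d : J → ℕ} {g : J → ι → MvPolynomial σ ℤ}
    (hg : ∀ j i, ∀ μ ∈ (g j i).support, μ.degree + a i = d j) {D : ℕ} (hd : ∀ j, d j ≤ D)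
    (ha : ∀ i, a i ≤ D) (s : σ)
    (hgen : ∀ T : Finset J, #T ≤ Fintype.card ι →
      LinearIndependent ℚ fun (j : T) i => ((eval (Pi.single s 1) (g j i) : ℤ) : ℚ))
    {C₀ : ℝ} (hC1 : 1 ≤ C₀)
    (hC : ∀ k i, ∑ κ ∈ mon σ (D - a i), |((coeff κ (row a d g D s k i) : ℤ) : ℝ)| ≤ C₀)
    (u : σ → ℤ) (x : ι → ℤ) {R Ξ : ℝ} (hR0 : 0 < R) (hΞ0 : 0 < Ξ) (hR : v (u s) = R)
    (hu : ∀ t, v (u t) ≤ R) (hx : ∀ i, v (x i) ≤ R ^ a i * Ξ)
    (hx' : ∃ i, v (x i) = R ^ a i * Ξ) :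
    ∃ f : ι → J ⊕ ι,
      ((Matrix.of fun r => row a d g D s (f r)).map (eval (Pi.single s 1))).det ≠ 0 ∧
      (∏ r, v ((∑ i, eval u (row a d g D s (f r) i) * x i : ℤ) : ℚ) / (R ^ D * Ξ)) *
        (v ((eval u (Matrix.of fun r => row a d g D s (f r)).det : ℤ) : ℚ) / R ^ (∑ i, (D - a i)) /
          ((Fintype.card ι).factorial * C₀ ^ Fintype.card ι)) ^
            (Fintype.card J - Fintype.card ι) ≤
      ∏ j, v ((∑ i, eval u (g j i) * x i : ℤ) : ℚ) / (R ^ d j * Ξ) := by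
  classical
  set ρ : J → ℝ := fun j => v ((∑ i, eval u (g j i) * x i : ℤ) : ℚ) / (R ^ d j * Ξ) with hρ
  have hρ0 : ∀ j, 0 ≤ ρ j := fun j => div_nonneg (v.nonneg _) (by positivity)
  obtain ⟨T, hT, hlow⟩ := exists_low ρ (min (Fintype.card J) (Fintype.card ι)) (min_le_left _ _)
  obtain ⟨f, hf, hTf, hfT, hdet⟩ := exists_frame
    (fun j i => ((eval (Pi.single s 1) (g j i) : ℤ) : ℚ)) T (hgen T (hT.le.trans (min_le_right _ _)))
  refine ⟨f, row_det hdet, ?_⟩
  set ρ' : J ⊕ ι → ℝ := fun k =>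
    v ((∑ i, eval u (row a d g D s k i) * x i : ℤ) : ℚ) / (R ^ D * Ξ) with hρ'
  have hρ'0 : ∀ k, 0 ≤ ρ' k := fun k => div_nonneg (v.nonneg _) (by positivity)
  have hl : ∀ j, ρ' (Sum.inl j) = ρ j := fun j => by
    have h1 : ∑ i, eval u (row a d g D s (Sum.inl j) i) * x i =
        u s ^ (D - d j) * ∑ i, eval u (g j i) * x i := by
      simp [row, mul_sum, mul_assoc]
    have h2 : R ^ D = R ^ (D - d j) * R ^ d j := by rw [← pow_add, Nat.sub_add_cancel (hd j)]
    simp only [hρ', hρ]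
    rw [h1, Int.cast_mul, map_mul, Int.cast_pow, map_pow, hR, h2]
    field_simp
  have hr : ∀ i', ρ' (Sum.inr i') ≤ 1 := fun i' => by
    have h1 : ∑ i, eval u (row a d g D s (Sum.inr i') i) * x i = u s ^ (D - a i') * x i' := by
      rw [sum_eq_single i' (fun i _ hi => by simp [row, hi]) (by simp)]
      simp [row]
    have h2 : R ^ D = R ^ (D - a i') * R ^ a i' := by rw [← pow_add, Nat.sub_add_cancel (ha i')]
    simp only [hρ']
    rw [h1, Int.cast_mul, map_mul, Int.cast_pow, map_pow, hR, h2, div_le_one (by positivity),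
      mul_assoc]
    exact mul_le_mul_of_nonneg_left (hx i') (by positivity)
  have hsub : T.image (Sum.inl : J → J ⊕ ι) ⊆ univ.image f := fun k hk => by
    obtain ⟨j, hj, rfl⟩ := mem_image.1 hk
    obtain ⟨r, hr⟩ := hTf j hj
    exact mem_image.2 ⟨r, mem_univ _, hr⟩
  have h1 : ∏ r, ρ' (f r) ≤ ∏ j ∈ T, ρ j := by
    rw [← prod_image (s := univ) (f := ρ') hf.injOn, ← prod_sdiff hsub,
      prod_image Sum.inl_injective.injOn]
    simp only [hl]
    refine mul_le_of_le_one_left (prod_nonneg fun j _ => hρ0 j)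
      (prod_le_one (fun k _ => hρ'0 k) fun k hk => ?_)
    obtain ⟨h2, h3⟩ := mem_sdiff.1 hk
    obtain ⟨r, -, rfl⟩ := mem_image.1 h2
    rcases hfr : f r with j | i'
    · exact absurd (hfr ▸ mem_image_of_mem _ (hfT r j hfr)) h3
    · exact hr i'
  rw [← prod_mul_prod_compl T]
  refine mul_le_mul h1 ?_ (pow_nonneg (div_nonneg (div_nonneg (v.nonneg _) (by positivity))
    (by positivity)) _) (prod_nonneg fun j _ => hρ0 j)
  have hcard : #Tᶜ = Fintype.card J - Fintype.card ι := by rw [card_compl, hT]; omega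
  rw [← hcard, ← prod_const]
  refine prod_le_prod (fun _ _ => div_nonneg (div_nonneg (v.nonneg _) (by positivity))
    (by positivity)) fun j' hj' => ?_
  have hpos : 0 < #Tᶜ := card_pos.2 ⟨j', hj'⟩
  have heq : T.image (Sum.inl : J → J ⊕ ι) = univ.image f := by
    refine eq_of_subset_of_card_le hsub ?_
    rw [card_image_of_injective _ hf, card_image_of_injective _ Sum.inl_injective, hT, card_univ]
    omega
  have h2 : ∀ r, ρ' (f r) ≤ ρ j' := fun r => by
    obtain ⟨j, hj, h3⟩ := mem_image.1 (heq ▸ mem_image_of_mem f (mem_univ r))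
    rw [← h3, hl]
    exact hlow j hj j' (mem_compl.1 hj')
  obtain ⟨i₀, hi₀⟩ := hx'
  have h3 := cramer_bound v ((Matrix.of fun r => row a d g D s (f r)).map (eval u)) x
    (fun i => C₀ * R ^ (D - a i)) (fun r i => (eval_bound v hv (row_hom hg hd s (f r) i) u hu).trans
      (mul_le_mul_of_nonneg_right (hC _ _) (by positivity))) (M := ρ j' * (R ^ D * Ξ))
    (fun r => (div_le_iff₀ (by positivity)).1 (h2 r)) i₀
  have h4 : ((Matrix.of fun r => row a d g D s (f r)).map (eval u)).det =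
      eval u (Matrix.of fun r => row a d g D s (f r)).det := ((eval u).map_det _).symm
  rw [h4, hi₀, prod_mul_distrib, prod_const, prod_pow_eq_pow_sum, card_univ] at h3
  have h5 : R ^ D = R ^ a i₀ * R ^ (D - a i₀) := by
    rw [← pow_add, Nat.add_sub_cancel' (ha i₀)]
  set δ := v ((eval u (Matrix.of fun r => row a d g D s (f r)).det : ℤ) : ℚ) with hδ
  have hδ0 : 0 ≤ δ := v.nonneg _
  rw [div_div, div_le_iff₀ (by positivity)]
  refine le_of_mul_le_mul_right ?_ (show 0 < R ^ D * Ξ by positivity)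
  calc δ * (R ^ D * Ξ) ≤ δ * (R ^ D * Ξ) * C₀ := le_mul_of_one_le_right (by positivity) hC1
    _ = δ * (R ^ a i₀ * Ξ) * (C₀ * R ^ (D - a i₀)) := by rw [h5]; ring
    _ ≤ _ := h3
    _ = _ := by ring

theorem main_mul [Nonempty σ] [Nonempty ι] [Fintype J] (a : ι → ℕ) (d : J → ℕ)
    (g : J → ι → MvPolynomial σ ℤ) (hg : ∀ j i, ∀ μ ∈ (g j i).support, μ.degree + a i = d j)
    (hgen : ∀ (s : σ) (T : Finset J), #T ≤ Fintype.card ι →
      LinearIndependent ℚ fun (j : T) i => ((eval (Pi.single s 1) (g j i) : ℤ) : ℚ))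
    {ε : ℝ} (hε : 0 < ε) :
    ∃ (c : ℕ) (F : MvPolynomial (σ ⊕ ι) ℤ) (e : ℕ × ℕ), F ≠ 0 ∧
      F.IsWeightedHomogeneous (wt σ a) e ∧
      ∀ (S : Finset ℕ) (hS : ∀ p ∈ S, p.Prime), ∃ C : ℝ, ∀ (u : σ → ℤ) (x : ι → ℤ),
        univ.gcd u = 1 → univ.gcd x = 1 → eval (Sum.elim u x) F ≠ 0 →
        (∀ t, u t ≠ 0) ∧ (∀ i, x i ≠ 0) ∧
        1 ≤ Real.exp (C + ε * (Real.log ‖u‖ + Real.log ‖x‖)) *
          (∏ t, ∏ o, place S hS o (u t)) ^ c *
          ((∏ o, ∏ j, place S hS o ((∑ i, eval u (g j i) * x i : ℤ) : ℚ) /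
            ((o.elim ‖u‖ fun _ => 1) ^ d j * o.elim (xi a u x) fun _ => 1)) *
            ∏ r, ‖u‖ ^ a r * xi a u x) := by
  classical
  set D : ℕ := ∑ j, d j + ∑ i, a i with hD
  have hd : ∀ j, d j ≤ D := fun j =>
    (single_le_sum (fun _ _ => Nat.zero_le _) (mem_univ j)).trans (Nat.le_add_right _ _)
  have ha : ∀ i, a i ≤ D := fun i =>
    (single_le_sum (fun _ _ => Nat.zero_le _) (mem_univ i)).trans (Nat.le_add_left _ _)
  let Φ : Type := {p : σ × (ι → J ⊕ ι) //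
    ((Matrix.of fun r => row a d g D p.1 (p.2 r)).map (eval (Pi.single p.1 1))).det ≠ 0}
  let G : Φ → Matrix ι ι (MvPolynomial σ ℤ) := fun φ =>
    Matrix.of fun r => row a d g D φ.1.1 (φ.1.2 r)
  have hG : ∀ φ r i, (G φ r i).IsHomogeneous (D - a i) := fun φ r i => row_hom hg hd _ _ _
  set m : ℕ := Fintype.card J - Fintype.card ι with hm
  have hε' : 0 < ε / (m + 1) := by positivity
  obtain ⟨c₁, b₁, W₁, hb₁, hW₁, h₁⟩ := ml a D ha (fun φ : Φ => φ.1.1) G hG (fun φ => φ.2) hε'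
  obtain ⟨c₂, b₂, W₂, -, hW₂, h₂⟩ := ml (fun _ : Unit => 0) (∑ i, (D - a i)) (fun _ => Nat.zero_le _)
    (fun φ : Φ => φ.1.1) (fun φ => Matrix.of fun _ _ => (G φ).det)
    (fun φ _ _ => det_homogeneous _ _ (hG φ)) (fun φ => by
      rw [det_unique, map_apply, of_apply, RingHom.map_det]
      exact φ.2) hε'
  obtain ⟨F, e, hF0, hFe, hF⟩ := (gen_X (wt σ a)).and ((gen_all W₁ fun w hw =>
    gen_mvec a (fun i => (ha i).trans hb₁) (hW₁ w hw)).and (gen_all W₂ fun w hw =>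
      gen_mvec_unit a (hW₂ w hw)))
  set C₀ : ℝ := 1 + ∑ p : σ × (J ⊕ ι) × ι,
    ∑ κ ∈ mon σ (D - a p.2.2), |((coeff κ (row a d g D p.1 p.2.1 p.2.2) : ℤ) : ℝ)| with hC₀
  have hC1 : 1 ≤ C₀ := le_add_of_nonneg_right (by positivity)
  have hC : ∀ s k i, ∑ κ ∈ mon σ (D - a i), |((coeff κ (row a d g D s k i) : ℤ) : ℝ)| ≤ C₀ :=
    fun s k i => (single_le_sum (f := fun p : σ × (J ⊕ ι) × ι => ∑ κ ∈ mon σ (D - a p.2.2),
      |((coeff κ (row a d g D p.1 p.2.1 p.2.2) : ℤ) : ℝ)|) (fun _ _ => by positivity)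
      (mem_univ (s, k, i))).trans (by linarith)
  set C₁ : ℝ := (Fintype.card ι).factorial * C₀ ^ Fintype.card ι with hC₁
  have hC₁0 : 0 < C₁ := by positivity
  refine ⟨c₁ + c₂ * m, F, e, hF0, hFe, fun S hS => ?_⟩
  obtain ⟨K₁, hK₁⟩ := h₁ S hS
  obtain ⟨K₂, hK₂⟩ := h₂ S hS
  refine ⟨K₁ + m * (K₂ + Fintype.card (Option S) * Real.log C₁), fun u x hu hx hz => ?_⟩
  obtain ⟨h0, hw₁, hw₂⟩ := hF _ hz
  have hu0 : ∀ t, u t ≠ 0 := fun t => h0 (Sum.inl t)
  have hx0 : ∀ i, x i ≠ 0 := fun i => h0 (Sum.inr i)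
  refine ⟨hu0, hx0, ?_⟩
  have hu1 := one_le_norm hu0
  have hx1 := one_le_norm hx0
  have hupos : 0 < ‖u‖ := by linarith
  have hξ0 := xi_pos a hupos hx0
  have hR0 : ∀ o : Option S, 0 < o.elim ‖u‖ fun _ => 1 := by
    rintro (_ | p); exacts [hupos, one_pos]
  have hΞ0 : ∀ o : Option S, 0 < o.elim (xi a u x) fun _ => 1 := by
    rintro (_ | p); exacts [hξ0, one_pos]
  have hs : ∀ o : Option S, ∃ s, place S hS o (u s) = o.elim ‖u‖ fun _ => 1 := by
    rintro (_ | p)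
    · obtain ⟨s, hs⟩ := exists_norm_eq u
      exact ⟨s, by rw [place_none]; exact hs⟩
    · exact exists_padic_one S hS p hu
  choose s hs using hs
  choose f hf hle using fun o : Option S => local_lower (place S hS o) ((places_place S hS).1 o)
    hg hd ha (s o) (hgen (s o)) hC1 (hC (s o)) u x (hR0 o) (hΞ0 o) (hs o)
    (by
      rcases o with _ | p
      · intro t; rw [place_none]; exact abs_le_norm u t
      · exact fun t => place_int_le S hS p _)
    (by
      rcases o with _ | p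
      · intro i; rw [place_none]; exact le_xi a hupos x i
      · intro i; simpa using place_int_le S hS p _)
    (by
      rcases o with _ | p
      · obtain ⟨i, hi⟩ := exists_norm_eq fun i => (x i : ℝ) / ‖u‖ ^ a i
        refine ⟨i, ?_⟩
        rw [place_none]
        rw [Real.norm_eq_abs, abs_div, abs_of_pos (pow_pos hupos _),
          div_eq_iff (pow_pos hupos _).ne', mul_comm] at hi
        exact hi
      · simpa using exists_padic_one S hS p hx)
  have h3 := hK₁ u x hu0 hx0 hw₁ (fun o => ⟨(s o, f o), hf o⟩) hs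
  have h4 := hK₂ u 1 hu0 (fun _ => one_ne_zero) hw₂ (fun o => ⟨(s o, f o), hf o⟩) hs
  have hxi : xi (fun _ : Unit => 0) u 1 = 1 := by simp [xi, pi_norm_const]
  have hone : ∀ o : Option S, o.elim (1 : ℝ) (fun _ => 1) = 1 := by rintro (_ | p) <;> rfl
  simp only [hxi, hone, univ_unique, prod_singleton, sum_singleton, of_apply, Pi.one_apply, mul_one,
    pow_zero, norm_one, Real.log_one, add_zero] at h4
  have h5 := prod_le_prod (fun o _ => mul_nonneg (prod_nonneg fun r _ => div_nonneg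
    ((place S hS o).nonneg _) (mul_pos (pow_pos (hR0 o) _) (hΞ0 o)).le) (pow_nonneg (div_nonneg
      (div_nonneg ((place S hS o).nonneg _) (pow_pos (hR0 o) _).le) hC₁0.le) _))
    fun o (_ : o ∈ univ) => hle o
  rw [prod_mul_distrib, prod_pow, prod_div_distrib, prod_const, card_univ] at h5
  set A := ∏ t, ∏ o, place S hS o (u t) with hA
  have hA0 : 0 ≤ A := prod_nonneg fun t _ => prod_nonneg fun o _ => (place S hS o).nonneg _
  set Q := ∏ r, ‖u‖ ^ a r * xi a u x with hQ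
  have hQ0 : 0 ≤ Q := prod_nonneg fun r _ => by positivity
  simp only [G, of_apply] at h3 h4
  set P := ∏ o, ∏ r, place S hS o ((∑ i, eval u (row a d g D (s o) (f o r) i) * x i : ℤ) : ℚ) /
    ((o.elim ‖u‖ fun _ => 1) ^ D * o.elim (xi a u x) fun _ => 1) with hP
  set δ := ∏ o, place S hS o ((eval u (Matrix.of fun r => row a d g D (s o) (f o r)).det : ℤ) : ℚ) /
    (o.elim ‖u‖ fun _ => 1) ^ ∑ i, (D - a i) with hδ
  set N := Fintype.card (Option S) with hN
  set H := Real.log ‖u‖ + Real.log ‖x‖ with hH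
  have h6 : 1 ≤ Real.exp (K₂ + N * Real.log C₁ + ε / (m + 1) * H) * A ^ c₂ * (δ / C₁ ^ N) := by
    have hδ0 : 0 ≤ δ := prod_nonneg fun o _ =>
      div_nonneg ((place S hS o).nonneg _) (pow_pos (hR0 o) _).le
    have h7 : Real.exp (K₂ + ε / (m + 1) * Real.log ‖u‖) ≤ Real.exp (K₂ + ε / (m + 1) * H) :=
      Real.exp_le_exp.2 (by nlinarith [Real.log_nonneg hx1])
    refine h4.trans ((mul_le_mul_of_nonneg_right (mul_le_mul_of_nonneg_right h7 (by positivity))
      hδ0).trans (le_of_eq ?_))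
    rw [add_right_comm, Real.exp_add _ (N * Real.log C₁), Real.exp_nat_mul, Real.exp_log hC₁0]
    field_simp
  have h8 := one_le_mul_of_one_le_of_one_le h3 (one_le_pow₀ (n := m) h6)
  refine h8.trans ?_
  have h9 : Real.exp (K₁ + m * (K₂ + N * Real.log C₁) + ε * H) =
      Real.exp (K₁ + ε / (m + 1) * H) *
        Real.exp (K₂ + N * Real.log C₁ + ε / (m + 1) * H) ^ m := by
    rw [← Real.exp_nat_mul, ← Real.exp_add]
    congr 1
    field_simp
    ring
  rw [h9, pow_add, pow_mul]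
  calc _ = (Real.exp (K₁ + ε / (m + 1) * H) *
        Real.exp (K₂ + N * Real.log C₁ + ε / (m + 1) * H) ^ m * (A ^ c₁ * (A ^ c₂) ^ m)) *
        ((P * (δ / C₁ ^ N) ^ m) * Q) := by rw [mul_pow, mul_pow]; ring
    _ ≤ _ := by gcongr

end Pool.Agent.Lib.MP_651af7_nt.Moving
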