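import Pool.Agent.Lib.MP_651af7_nt.Moving.Est

/-! Auxiliary lemmas: exceptional polynomials, frames, Cramer's rule. -/

namespace Pool.Agent.Lib.MP_651af7_nt.Moving

open Finset Matrix MvPolynomial Pool.Agent.Lib.Common.Subspace

/-- The property `P` holds off the zero set of a nonzero weighted homogeneous polynomial. -/
def Gen {τ : Type} (wt : τ → ℕ × ℕ) (P : (τ → ℤ) → Prop) : Prop :=
  ∃ (F : MvPolynomial τ ℤ) (e : ℕ × ℕ), F ≠ 0 ∧ F.IsWeightedHomogeneous wt e ∧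
    ∀ z, eval z F ≠ 0 → P z

theorem Gen.and {τ : Type} {wt : τ → ℕ × ℕ} {P Q : (τ → ℤ) → Prop} (hP : Gen wt P)
    (hQ : Gen wt Q) : Gen wt fun z => P z ∧ Q z := by
  obtain ⟨F, e, h0, h1, h2⟩ := hP
  obtain ⟨F', e', h0', h1', h2'⟩ := hQ
  refine ⟨F * F', e + e', mul_ne_zero h0 h0', h1.mul h1', fun z hz => ?_⟩
  rw [map_mul] at hz
  exact ⟨h2 z (left_ne_zero_of_mul hz), h2' z (right_ne_zero_of_mul hz)⟩

theorem gen_all {τ α : Type} {wt : τ → ℕ × ℕ} (W : Finset α) {P : α → (τ → ℤ) → Prop}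
    (h : ∀ w ∈ W, Gen wt (P w)) : Gen wt fun z => ∀ w ∈ W, P w z := by
  choose! F e h0 h1 h2 using h
  refine ⟨∏ w ∈ W, F w, ∑ w ∈ W, e w, prod_ne_zero_iff.2 h0,
    IsWeightedHomogeneous.prod W F e h1, fun z hz w hw => h2 w hw z ?_⟩
  rw [map_prod] at hz
  exact prod_ne_zero_iff.1 hz w hw

theorem gen_X {τ : Type} [Fintype τ] (wt : τ → ℕ × ℕ) : Gen wt fun z => ∀ t, z t ≠ 0 := by
  obtain ⟨F, e, h0, h1, h2⟩ := gen_all (wt := wt) univ (P := fun t z => z t ≠ 0) fun t _ =>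
    ⟨X t, wt t, X_ne_zero t, isWeightedHomogeneous_X ℤ wt t, fun z hz => by simpa using hz⟩
  exact ⟨F, e, h0, h1, fun z hz t => h2 z hz t (mem_univ t)⟩

theorem gen_lin {τ I : Type} [Fintype τ] [Fintype I] (wt : τ → ℕ × ℕ) (ex : I → τ →₀ ℕ)
    (he : Function.Injective ex) (m : ℕ × ℕ) (hm : ∀ K, Finsupp.weight wt (ex K) = m)
    {w : I → ℤ} (hw : w ≠ 0) : Gen wt fun z => ∑ K, w K * ∏ t, z t ^ ex K t ≠ 0 := by
  classical
  refine ⟨∑ K, monomial (ex K) (w K), m, fun h => hw (funext fun K => ?_),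
    IsWeightedHomogeneous.sum _ _ _ fun K _ => isWeightedHomogeneous_monomial _ _ _ (hm K),
    fun z hz => ?_⟩
  · have h1 := congrArg (coeff (ex K)) h
    rw [coeff_sum, sum_eq_single K (fun K' _ hK => by
      rw [coeff_monomial, if_neg fun h => hK (he h)]) (by simp)] at h1
    simpa using h1
  · rw [map_sum] at hz
    simpa only [eval_monomial, Finsupp.prod_fintype _ _ (fun _ => pow_zero _)] using hz

variable {σ ι : Type} [Fintype σ] [DecidableEq σ] [Fintype ι] [DecidableEq ι]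

/-- The grading of the Cox ring. -/
def wt (σ : Type) (a : ι → ℕ) : σ ⊕ ι → ℕ × ℕ := Sum.elim (fun _ => (1, 0)) fun i => (a i, 1)

theorem gen_mvec (a : ι → ℕ) {b : ℕ} (hb : ∀ i, a i ≤ b) {w : Idx σ a b → ℤ} (hw : w ≠ 0) :
    Gen (wt σ a) fun z => w ⬝ᵥ mvec a b (z ∘ Sum.inl) (z ∘ Sum.inr) ≠ 0 := by
  obtain ⟨F, e, h0, h1, h2⟩ := gen_lin (wt σ a)
    (fun K : Idx σ a b => Finsupp.sumElim K.2.1 (Finsupp.single K.1 1)) (by
      rintro ⟨i, μ, hμ⟩ ⟨i', μ', hμ'⟩ h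
      have h3 : i = i' := by
        have := DFunLike.congr_fun h (Sum.inr i)
        simp only [Finsupp.sumElim_inr, Finsupp.single_eq_same] at this
        by_contra hne
        rw [Finsupp.single_eq_of_ne hne] at this
        exact one_ne_zero this
      subst h3
      have h4 : μ = μ' := Finsupp.ext fun t => DFunLike.congr_fun h (Sum.inl t)
      subst h4
      rfl) (b, 1) (fun K => by
      rw [Finsupp.weight_eq_sum, Fintype.sum_sum_type]
      simp only [Finsupp.sumElim_inl, Finsupp.sumElim_inr, wt, Sum.elim_inl, Sum.elim_inr]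
      rw [← sum_smul, ← Finsupp.degree_eq_sum, mem_mon.1 K.2.2, sum_eq_single K.1
        (fun i _ hi => by rw [Finsupp.single_eq_of_ne hi, zero_smul]) (by simp)]
      have := hb K.1
      simp
      omega) hw
  refine ⟨F, e, h0, h1, fun z hz => ?_⟩
  refine fun h => h2 z hz (Eq.trans (sum_congr rfl fun K _ => Eq.symm ?_) h)
  rw [Fintype.prod_sum_type]
  simp only [Finsupp.sumElim_inl, Finsupp.sumElim_inr, mvec, Function.comp]
  rw [prod_eq_single K.1 (fun i _ hi => by rw [Finsupp.single_eq_of_ne hi, pow_zero]) (by simp)]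
  simp

omit [DecidableEq ι] in
theorem gen_mvec_unit (a : ι → ℕ) {b : ℕ} {w : Idx σ (fun _ : Unit => 0) b → ℤ} (hw : w ≠ 0) :
    Gen (wt σ a) fun z => w ⬝ᵥ mvec (fun _ : Unit => 0) b (z ∘ Sum.inl) 1 ≠ 0 := by
  obtain ⟨F, e, h0, h1, h2⟩ := gen_lin (wt σ a)
    (fun K : Idx σ (fun _ : Unit => 0) b => Finsupp.sumElim K.2.1 0) (by
      rintro ⟨⟨⟩, μ, hμ⟩ ⟨⟨⟩, μ', hμ'⟩ h
      have h4 : μ = μ' := Finsupp.ext fun t => DFunLike.congr_fun h (Sum.inl t)
      subst h4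
      rfl) (b, 0) (fun K => by
      rw [Finsupp.weight_eq_sum, Fintype.sum_sum_type]
      simp only [Finsupp.sumElim_inl, Finsupp.sumElim_inr, wt, Sum.elim_inl, Sum.elim_inr]
      rw [← sum_smul, ← Finsupp.degree_eq_sum, mem_mon.1 K.2.2]
      simp) hw
  refine ⟨F, e, h0, h1, fun z hz => ?_⟩
  refine fun h => h2 z hz (Eq.trans (sum_congr rfl fun K _ => Eq.symm ?_) h)
  rw [Fintype.prod_sum_type]
  simp [Finsupp.sumElim_inl, Finsupp.sumElim_inr, mvec]

theorem exists_frame {J : Type} (v : J → ι → ℚ) (T : Finset J)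
    (hT : LinearIndependent ℚ fun j : T => v j) :
    ∃ f : ι → J ⊕ ι, Function.Injective f ∧ (∀ j ∈ T, ∃ r, f r = Sum.inl j) ∧
      (∀ r j, f r = Sum.inl j → j ∈ T) ∧
      (Matrix.of fun r => Sum.elim v (fun i => Pi.single i 1) (f r)).det ≠ 0 := by
  set V : J ⊕ ι → ι → ℚ := Sum.elim v fun i => Pi.single i 1 with hV
  have h1 : LinearIndepOn ℚ V (Sum.inl '' (T : Set J)) := by
    have h0 : LinearIndepOn ℚ (V ∘ Sum.inl) (T : Set J) := hT
    exact h0.image_of_comp Sum.inl V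
  obtain ⟨B, hBt, hsB, hspan, hli⟩ := exists_linearIndepOn_extension h1
    (Set.subset_union_left (t := Set.range Sum.inr))
  have h2 : ⊤ ≤ Submodule.span ℚ (Set.range fun k : B => V k) := by
    rw [← (Pi.basisFun ℚ ι).span_eq, Submodule.span_le]
    rintro _ ⟨i, rfl⟩
    rw [← Set.image_eq_range]
    exact hspan ⟨Sum.inr i, Or.inr ⟨i, rfl⟩, by simp [hV]⟩
  let bas := Module.Basis.mk hli h2
  let e : ι ≃ B := (Pi.basisFun ℚ ι).indexEquiv bas
  refine ⟨fun r => (e r).1, Subtype.val_injective.comp e.injective, fun j hj => ?_,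
    fun r j h => ?_, ?_⟩
  · exact ⟨e.symm ⟨_, hsB ⟨j, hj, rfl⟩⟩, by simp⟩
  · have h3 := hBt (e r).2
    rw [show (e r).1 = Sum.inl j from h] at h3
    rcases h3 with ⟨j', hj', h4⟩ | ⟨i, h4⟩
    · rw [← Sum.inl_injective h4]; exact hj'
    · exact absurd h4 Sum.inr_ne_inl
  · have h3 : LinearIndependent ℚ (Matrix.of fun r => V (e r).1).row :=
      hli.comp e e.injective
    exact ((isUnit_iff_isUnit_det _).1 (linearIndependent_rows_iff_isUnit.1 h3)).ne_zero

theorem exists_low {J : Type} [Fintype J] (f : J → ℝ) (m : ℕ) (hm : m ≤ Fintype.card J) :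
    ∃ T : Finset J, #T = m ∧ ∀ j ∈ T, ∀ j' ∉ T, f j ≤ f j' := by
  classical
  induction m with
  | zero => exact ⟨∅, rfl, by simp⟩
  | succ m ih =>
    obtain ⟨T, h1, h2⟩ := ih (by omega)
    have h3 : Tᶜ.Nonempty := by rw [← card_pos, card_compl]; omega
    obtain ⟨j₀, hj₀, h4⟩ := exists_min_image Tᶜ f h3
    refine ⟨insert j₀ T, by rw [card_insert_of_notMem (mem_compl.1 hj₀), h1], ?_⟩
    intro j hj j' hj'
    rw [mem_insert, not_or] at hj'
    rcases mem_insert.1 hj with rfl | hj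
    · exact h4 j' (mem_compl.2 hj'.2)
    · exact h2 j hj j' hj'.2

theorem eval_bound (v : AbsoluteValue ℚ ℝ) (hv : ∀ z : ℤ, v z ≤ |(z : ℝ)|)
    {P : MvPolynomial σ ℤ} {n : ℕ} (hP : P.IsHomogeneous n) (u : σ → ℤ) {R : ℝ}
    (hR : ∀ t, v (u t) ≤ R) :
    v ((eval u P : ℤ) : ℚ) ≤ (∑ κ ∈ mon σ n, |((coeff κ P : ℤ) : ℝ)|) * R ^ n := by
  rw [← sum_coeff_eval hP, Int.cast_sum, sum_mul]
  refine (v.sum_le _ _).trans (sum_le_sum fun κ hκ => ?_)
  rw [Int.cast_mul, map_mul]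
  refine mul_le_mul (hv _) ?_ (v.nonneg _) (abs_nonneg _)
  push_cast
  rw [map_prod, ← mem_mon.1 hκ, Finsupp.degree_eq_sum, ← prod_pow_eq_pow_sum]
  refine prod_le_prod (fun _ _ => v.nonneg _) fun t _ => ?_
  rw [map_pow]
  exact pow_le_pow_left₀ (v.nonneg _) (hR t) _

theorem cramer_bound (v : AbsoluteValue ℚ ℝ) (A : Matrix ι ι ℤ) (x : ι → ℤ) (c : ι → ℝ)
    (hc : ∀ r i, v (A r i) ≤ c i) {M : ℝ} (hM : ∀ r, v ((A *ᵥ x) r) ≤ M) (i : ι) :
    v A.det * v (x i) * c i ≤ (Fintype.card ι).factorial * (M * ∏ i, c i) := by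
  have h1 : A.det * x i = (A.updateCol i (A *ᵥ x)).det := by
    rw [← cramer_apply, cramer_eq_adjugate_mulVec, mulVec_mulVec, adjugate_mul, smul_mulVec,
      one_mulVec, Pi.smul_apply, smul_eq_mul]
  have h2 := abv_int_det_le v (A.updateCol i (A *ᵥ x)) (fun _ => 1) (Function.update c i M)
    fun r i' => by
      rw [one_mul, updateCol_apply]
      split_ifs with h
      · rw [h, Function.update_self]; exact hM r
      · rw [Function.update_of_ne h]; exact hc r i'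
  rw [← h1, Int.cast_mul, map_mul, prod_const_one, one_mul, prod_update_of_mem (mem_univ i)] at h2
  have h3 : 0 ≤ c i := (v.nonneg _).trans (hc i i)
  refine (mul_le_mul_of_nonneg_right h2 h3).trans (le_of_eq ?_)
  rw [← mul_prod_erase univ c (mem_univ i), sdiff_singleton_eq_erase]
  ring

omit [Fintype σ] [DecidableEq σ] in
theorem det_homogeneous (G : Matrix ι ι (MvPolynomial σ ℤ)) (n : ι → ℕ)
    (hG : ∀ r i, (G r i).IsHomogeneous (n i)) : G.det.IsHomogeneous (∑ i, n i) := by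
  rw [det_apply']
  refine IsHomogeneous.sum _ _ _ fun π _ => ?_
  have h1 := (isHomogeneous_C σ ((Equiv.Perm.sign π : ℤˣ) : ℤ)).mul
    (IsHomogeneous.prod univ (fun i => G (π i) i) n fun i _ => hG _ _)
  simpa using h1

theorem exists_padic_one {κ : Type} [Fintype κ] [DecidableEq κ] (S : Finset ℕ)
    (hS : ∀ p ∈ S, p.Prime) (p : S) {x : κ → ℤ} (hx : univ.gcd x = 1) :
    ∃ i, place S hS (some p) (x i) = 1 := by
  have := Fact.mk (hS p.1 p.2)
  by_contra h
  push Not at h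
  have h1 : (p.1 : ℤ) ∣ univ.gcd x := Finset.dvd_gcd fun i _ => by
    by_contra h2
    refine h i ?_
    rw [place_some, (padicNorm.int_eq_one_iff _).2 h2]
    simp
  rw [hx] at h1
  exact (hS p.1 p.2).not_dvd_one (by exact_mod_cast h1)

theorem exists_norm_eq {κ : Type} [Fintype κ] [Nonempty κ] {E : Type} [SeminormedAddGroup E]
    (f : κ → E) : ∃ i, ‖f i‖ = ‖f‖ := by
  obtain ⟨i, -, hi⟩ := exists_max_image univ (fun i => ‖f i‖) univ_nonempty
  exact ⟨i, le_antisymm (norm_le_pi_norm f i)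
    ((pi_norm_le_iff_of_nonneg (norm_nonneg _)).2 fun j => hi j (mem_univ j))⟩

end Pool.Agent.Lib.MP_651af7_nt.Moving
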